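import Mathlib
import Pool.Agent.Q263.RD.Dens

/-!
# `3 / 4` is a reciprocal density of a binary polynomial

The polynomial is
`(1 + x) (1 + x + x²)^16 (1 + x + x⁹)^15 a^15 b^16 e^12` where
`(1 + x) (1 + x + x²) (1 + x + x⁹) a b e = 1 + x + x^64 + x^66` and `a`, `b`, `e` are irreducible of
degree `18`. It has the degree `942`, it divides `1 + x^66576`, and the quotient has `49932`
nonzero coefficients.
-/

set_option autoImplicit false

open Polynomial

namespace Pool.Agent.Results.MP_375d90_nt.ThreeQuarters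

/-- The order of `f`: the least `D ≥ 1` such that `f` divides `1 + x ^ D`. -/
noncomputable def ord (f : (ZMod 2)[X]) : ℕ := sInf {D : ℕ | 1 ≤ D ∧ f ∣ 1 + X ^ D}

/-- The reciprocal density of `f`: the number of the nonzero coefficients of `(1 + x ^ D) / f`
divided by `D`, where `D` is the order of `f`. -/
noncomputable def gamma (f : (ZMod 2)[X]) : ℚ :=
  (((1 + X ^ ord f) / f).support.card : ℚ) / ord f

/-- **`3 / 4` is a reciprocal density.** -/
theorem result : ∃ f : (ZMod 2)[X], f.coeff 0 = 1 ∧ 1 ≤ f.natDegree ∧ gamma f = 3 / 4 :=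
  ⟨Pool.Agent.Q263.RD.fP, Pool.Agent.Q263.RD.main.1, Pool.Agent.Q263.RD.main.2.1,
    Pool.Agent.Q263.RD.main.2.2⟩

end Pool.Agent.Results.MP_375d90_nt.ThreeQuarters
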